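import Pool.Agent.K1H12.SW.Stm2

/-! Resolutions and isomorphic groups. -/

set_option autoImplicit false

namespace Pool.Agent.K1H38.HE

open Pool.Agent.K1H12.SW

section

variable {S S' : Type} [Ring S] [Ring S'] (E : S ≃+* S')

/-- the module over the isomorphic ring -/
abbrev tm (P : Type) [AddCommGroup P] [Module S P] : Module S' P :=
  Module.compHom P (E.symm : S' →+* S)

lemma tall (P : Type) [AddCommGroup P] [Module S P] :
    (Module.Finite S P → @Module.Finite S' P _ _ (tm E P)) ∧
    (Module.Projective S P → @Module.Projective S' _ P _ (tm E P)) ∧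
    (Module.Free S P → @Module.Free S' P _ _ (tm E P)) := by
  let m' : Module S' P := tm E P
  have i1 : RingHomInvPair (E : S →+* S') (E.symm : S' →+* S) := RingHomInvPair.of_ringEquiv E
  have i2 : RingHomInvPair (E.symm : S' →+* S) (E : S →+* S') := RingHomInvPair.symm _ _
  let f : P ≃ₛₗ[(E : S →+* S')] P :=
    { toFun := fun x => x
      invFun := fun x => x
      left_inv := fun _ => rfl
      right_inv := fun _ => rfl
      map_add' := fun _ _ => rfl
      map_smul' := fun r x => by
        change r • x = E.symm (E r) • x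
        rw [E.symm_apply_apply] }
  refine ⟨fun h => ?_, fun h => ?_, fun h => ?_⟩
  · exact Module.Finite.of_surjective f.toLinearMap f.surjective
  · exact Module.Projective.of_equiv f
  · exact Module.Free.of_equiv f

/-- the same map -/
def tmap {P Q : Type} [AddCommGroup P] [Module S P] [AddCommGroup Q] [Module S Q]
    (f : P →ₗ[S] Q) :
    letI := tm E P
    letI := tm E Q
    P →ₗ[S'] Q :=
  letI := tm E P
  letI := tm E Q
  { toFun := f
    map_add' := f.map_add
    map_smul' := fun r x => f.map_smul (E.symm r) x }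

end

theorem t_ISO : S_ISO := by
  intro G G' _ _ e A _
  let F : MonoidAlgebra ℤ G ≃+* MonoidAlgebra ℤ G' := MonoidAlgebra.mapDomainRingEquiv ℤ e
  have hF : ∀ g' : G', F.symm (MonoidAlgebra.of ℤ G' g') = MonoidAlgebra.of ℤ G (e.symm g') := by
    intro g'
    rw [RingEquiv.symm_apply_eq]
    simp [F, MonoidAlgebra.of_apply]
  constructor
  · rintro ⟨P, iP, mP, d, ε, n, h1, h2, h3, h4, h5, h6, h7⟩
    refine ⟨P, iP, fun i => tm F (P i), fun i => tmap F (d i), ε, n, fun i => (tall F (P i)).1 (h1 i),
      fun i => (tall F (P i)).2.1 (h2 i), h3, ?_, h5, ?_, ?_⟩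
    · intro g x
      change ε (F.symm (MonoidAlgebra.of ℤ G' g) • x) = ε x
      rw [hF]
      exact h4 _ _
    · intro x
      exact h6 x
    · intro i
      let m' : ∀ i, Module (MonoidAlgebra ℤ G') (P i) := fun i => tm F (P i)
      ext x
      have := SetLike.ext_iff.1 (h7 i) x
      exact this
  · rintro ⟨P, iP, mP, d, ε, n, h1, h2, h3, h4, h5, h6, h7⟩
    refine ⟨P, iP, fun i => tm F (P i), fun i => tmap F (d i), ε, n, fun i => (tall F (P i)).1 (h1 i),
      fun i => (tall F (P i)).2.2 (h2 i), h3, ?_, h5, ?_, ?_⟩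
    · intro g x
      change ε (F.symm (MonoidAlgebra.of ℤ G' g) • x) = ε x
      rw [hF]
      exact h4 _ _
    · intro x
      exact h6 x
    · intro i
      let m' : ∀ i, Module (MonoidAlgebra ℤ G') (P i) := fun i => tm F (P i)
      ext x
      have := SetLike.ext_iff.1 (h7 i) x
      exact this

end Pool.Agent.K1H38.HE
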