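import Pool.Agent.K1H12.SW.Stm

/-! The relation `Same`. -/

set_option autoImplicit false

namespace Pool.Agent.K1H38.HE

open Pool.Agent.K1H12.SW

section

variable {R : Type} [Ring R]

lemma ff_zero (M : Type) [AddCommGroup M] [Module R M] [Subsingleton M] : FF R M :=
  ⟨0, 0, 0, ⟨LinearEquiv.ofSubsingleton _ _⟩⟩

lemma ff_free (k : ℕ) : FF R (Fin k → R) := ⟨0, 0, k, ⟨LinearEquiv.prodUnique⟩⟩

variable (T : TT R (FF R))

include T

lemma ff_iso {A B : Type} [AddCommGroup A] [Module R A] [AddCommGroup B] [Module R B]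
    (e : A ≃ₗ[R] B) (h : FF R A) : FF R B := by
  refine (T A B PUnit.{1} e.toLinearMap 0 e.injective (fun x => ⟨0, Subsingleton.elim _ _⟩) ?_).1 h
    (ff_zero _)
  intro b
  simp only [LinearMap.zero_apply, true_iff]
  exact ⟨e.symm b, by simp⟩

lemma ff_prod {A B : Type} [AddCommGroup A] [Module R A] [AddCommGroup B] [Module R B]
    (h : FF R A) (h' : FF R B) : FF R (A × B) :=
  (T A (A × B) B (LinearMap.inl R A B) (LinearMap.snd R A B) LinearMap.inl_injective
    LinearMap.snd_surjective Function.Exact.inl_snd).1 h h'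

lemma ff_left {A B : Type} [AddCommGroup A] [Module R A] [AddCommGroup B] [Module R B]
    (h : FF R (A × B)) (h' : FF R B) : FF R A :=
  (T A (A × B) B (LinearMap.inl R A B) (LinearMap.snd R A B) LinearMap.inl_injective
    LinearMap.snd_surjective Function.Exact.inl_snd).2.1 h h'

lemma ff_right {A B : Type} [AddCommGroup A] [Module R A] [AddCommGroup B] [Module R B]
    (h : FF R (A × B)) (h' : FF R A) : FF R B :=
  (T A (A × B) B (LinearMap.inl R A B) (LinearMap.snd R A B) LinearMap.inl_injective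
    LinearMap.snd_surjective Function.Exact.inl_snd).2.2 h' h

omit T in
lemma pr_prod {A B : Type} [AddCommGroup A] [Module R A] [AddCommGroup B] [Module R B]
    (h : PR R A) (h' : PR R B) : PR R (A × B) := by
  obtain ⟨h1, h2⟩ := h
  obtain ⟨h3, h4⟩ := h'
  exact ⟨inferInstance, inferInstance⟩

omit T in
/-- the complement of a projective module -/
lemma compl (P : Type) [AddCommGroup P] [Module R P] (h : PR R P) :
    ∃ (D : Type) (_ : AddCommGroup D) (_ : Module R D) (k : ℕ), PR R D ∧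
      Nonempty ((P × D) ≃ₗ[R] (Fin k → R)) := by
  obtain ⟨h1, h2⟩ := h
  obtain ⟨k, f, hf⟩ := Module.Finite.exists_fin' R P
  obtain ⟨s, hs⟩ := Module.projective_lifting_property f LinearMap.id hf
  have hex : Function.Exact (LinearMap.ker f).subtype f := LinearMap.exact_subtype_ker_map f
  obtain ⟨e, -, -⟩ := hex.splitSurjectiveEquiv (LinearMap.ker f).injective_subtype ⟨s, hs⟩
  refine ⟨LinearMap.ker f, inferInstance, inferInstance, k, ⟨?_, ?_⟩, ⟨?_⟩⟩
  · exact Module.Finite.of_surjective ((LinearMap.fst R (LinearMap.ker f) P) ∘ₗ e.toLinearMap)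
      (fun x => ⟨e.symm (x, 0), by simp⟩)
  · exact Module.Projective.of_split (e.symm.toLinearMap ∘ₗ LinearMap.inl R (LinearMap.ker f) P)
      ((LinearMap.fst R (LinearMap.ker f) P) ∘ₗ e.toLinearMap) (by ext x; simp)
  · exact (LinearEquiv.prodComm R P (LinearMap.ker f)).trans e.symm

/-- extension of a resolution class -/
lemma exists_compl (n : ℕ) : ∀ (M : Type) [AddCommGroup M] [Module R M],
    Res R (fun P _ _ => PR R P) n M →
    ∃ (P : Type) (_ : AddCommGroup P) (_ : Module R P), PR R P ∧ FF R (M × P) := by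
  induction n with
  | zero =>
    intro M _ _ h
    obtain ⟨D, iD, mD, k, hD, ⟨e⟩⟩ := compl M h
    exact ⟨D, iD, mD, hD, ff_iso T e.symm (ff_free k)⟩
  | succ n ih =>
    intro M _ _ h
    obtain ⟨P, iP, mP, f, hP, hf, hr⟩ := h
    obtain ⟨C, iC, mC, hC, hKC⟩ := ih _ hr
    obtain ⟨C', iC', mC', c, hC', ⟨e1⟩⟩ := compl C hC
    obtain ⟨D, iD, mD, d, hD, ⟨e2⟩⟩ := compl P hP
    refine ⟨D × C', inferInstance, inferInstance, pr_prod hD hC', ?_⟩
    have hB : FF R ((P × D) × (C × C')) :=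
      ff_prod T (ff_iso T e2.symm (ff_free d)) (ff_iso T e1.symm (ff_free c))
    refine (T (LinearMap.ker f × C) ((P × D) × (C × C')) (M × (D × C'))
      (LinearMap.prodMap (LinearMap.inl R P D ∘ₗ (LinearMap.ker f).subtype) (LinearMap.inl R C C'))
      (LinearMap.prod (f ∘ₗ LinearMap.fst R P D ∘ₗ LinearMap.fst R (P × D) (C × C'))
        (LinearMap.prod (LinearMap.snd R P D ∘ₗ LinearMap.fst R (P × D) (C × C'))
          (LinearMap.snd R C C' ∘ₗ LinearMap.snd R (P × D) (C × C')))) ?_ ?_ ?_).2.2 hKC hB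
    · rintro ⟨⟨x, hx⟩, c⟩ ⟨⟨y, hy⟩, c'⟩ hxy
      simp only [LinearMap.prodMap_apply, LinearMap.coe_comp, Function.comp_apply,
        Submodule.subtype_apply, LinearMap.inl_apply, Prod.mk.injEq, and_true] at hxy
      simp only [Prod.mk.injEq, Subtype.mk.injEq]
      exact hxy
    · rintro ⟨m, d, c'⟩
      obtain ⟨p, rfl⟩ := hf m
      exact ⟨((p, d), (0, c')), by simp⟩
    · rintro ⟨⟨p, d⟩, ⟨c, c'⟩⟩
      change (f p, (d, c')) = 0 ↔ _
      rw [Prod.mk_eq_zero, Prod.mk_eq_zero, Set.mem_range]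
      constructor
      · rintro ⟨h1, h2, h3⟩
        refine ⟨(⟨p, h1⟩, c), ?_⟩
        simp [h2, h3]
      · rintro ⟨⟨⟨x, hx⟩, y⟩, hxy⟩
        simp only [LinearMap.prodMap_apply, LinearMap.coe_comp, Function.comp_apply,
          Submodule.subtype_apply, LinearMap.inl_apply, Prod.mk.injEq] at hxy
        obtain ⟨⟨h1, h2⟩, h3, h4⟩ := hxy
        subst h1
        exact ⟨hx, h2.symm, h4.symm⟩

lemma lem_U {M P0 D0 P : Type} [AddCommGroup M] [Module R M] [AddCommGroup P0] [Module R P0]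
    [AddCommGroup D0] [Module R D0] [AddCommGroup P] [Module R P] (h : FF R (M × P0))
    (h0 : FF R (P0 × D0)) : FF R (M × P) ↔ FF R (D0 × P) := by
  constructor
  · intro h1
    have h2 : FF R ((M × P) × (P0 × D0)) := ff_prod T h1 h0
    have h3 : FF R ((M × P0) × (P × D0)) := ff_iso T (LinearEquiv.prodProdProdComm R M P P0 D0) h2
    exact ff_iso T (LinearEquiv.prodComm R P D0) (ff_right T h3 h)
  · intro h1
    have h2 : FF R ((M × P0) × (P × D0)) := ff_prod T h (ff_iso T (LinearEquiv.prodComm R D0 P) h1)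
    have h3 : FF R ((M × P) × (P0 × D0)) := ff_iso T (LinearEquiv.prodProdProdComm R M P0 P D0) h2
    exact ff_left T h3 h0

/-- extensions with complements -/
lemma ext_ff {A B D P Q : Type} [AddCommGroup A] [Module R A] [AddCommGroup B] [Module R B]
    [AddCommGroup D] [Module R D] [AddCommGroup P] [Module R P] [AddCommGroup Q] [Module R Q]
    (f : A →ₗ[R] B) (g : B →ₗ[R] D) (hf : Function.Injective f) (hg : Function.Surjective g)
    (hfg : Function.Exact f g) (h : FF R (A × P)) (h' : FF R (D × Q)) : FF R (B × (P × Q)) := by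
  refine (T (A × P) (B × (P × Q)) (D × Q) (LinearMap.prodMap f (LinearMap.inl R P Q))
    (LinearMap.prodMap g (LinearMap.snd R P Q)) ?_ ?_ ?_).1 h h'
  · rintro ⟨a, p⟩ ⟨a', p'⟩ hxy
    simp only [LinearMap.prodMap_apply, LinearMap.inl_apply, Prod.mk.injEq, and_true] at hxy
    rw [hf hxy.1, hxy.2]
  · rintro ⟨d, q⟩
    obtain ⟨b, rfl⟩ := hg d
    exact ⟨(b, (0, q)), by simp⟩
  · rintro ⟨b, p, q⟩
    simp only [LinearMap.prodMap_apply, LinearMap.snd_apply, Prod.mk_eq_zero, Set.mem_range]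
    constructor
    · rintro ⟨h1, h2⟩
      obtain ⟨a, ha⟩ := (hfg b).1 h1
      exact ⟨(a, p), by simp [ha, h2]⟩
    · rintro ⟨⟨a, p'⟩, hxy⟩
      simp only [LinearMap.prodMap_apply, LinearMap.inl_apply, Prod.mk.injEq] at hxy
      obtain ⟨h1, h2, h3⟩ := hxy
      exact ⟨(hfg b).2 ⟨a, h1⟩, h3.symm⟩

end

theorem t_SM : S_SM := by
  intro R _ T U
  refine ⟨?_, ?_, ?_, ?_, ?_⟩
  · rintro M _ _ ⟨n, hn⟩
    obtain ⟨P, iP, mP, hP, h⟩ := exists_compl T n M hn
    exact ⟨P, iP, mP, hP, h, h⟩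
  · rintro M N K _ _ _ _ _ _ ⟨P, iP, mP, hP, h1, h2⟩ ⟨P', iP', mP', hP', h3, h4⟩
    obtain ⟨D', iD', mD', k, -, ⟨e⟩⟩ := compl P' hP'
    have h0 : FF R (P' × D') := ff_iso T e.symm (ff_free k)
    exact ⟨P, iP, mP, hP, h1, (lem_U T h4 h0).2 ((lem_U T h3 h0).1 h2)⟩
  · rintro M N _ _ _ _ ⟨P, iP, mP, hP, h1, h2⟩ h
    exact ff_left T h2 (ff_right T h1 h)
  · rintro A B D A' B' D' _ _ _ _ _ _ _ _ _ _ _ _ f g f' g' h1 h2 h3 h4 h5 h6
      ⟨P, iP, mP, hP, p1, p2⟩ ⟨Q, iQ, mQ, hQ, q1, q2⟩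
    exact ⟨P × Q, inferInstance, inferInstance, pr_prod hP hQ, ext_ff T f g h1 h2 h3 p1 q1,
      ext_ff T f' g' h4 h5 h6 p2 q2⟩
  · rintro A B D B' _ _ _ _ _ _ _ _ f g f' g' h1 h2 h3 h4 h5 h6 ⟨n, hn⟩ ⟨m, hm⟩
    obtain ⟨P, iP, mP, hP, p1⟩ := exists_compl T n A hn
    obtain ⟨Q, iQ, mQ, hQ, q1⟩ := exists_compl T m D hm
    refine ⟨P × Q, inferInstance, inferInstance, pr_prod hP hQ, ext_ff T f g h1 h2 h3 p1 q1, ?_⟩
    exact ff_iso T (LinearEquiv.prodCongr (LinearEquiv.refl R B') (LinearEquiv.prodComm R Q P))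
      (ext_ff T f' g' h4 h5 h6 q1 p1)

end Pool.Agent.K1H38.HE
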